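import Pool.Agent.helper83.ORE.SpecDE

/-!
# Row ore:ESN
-/

set_option autoImplicit false

namespace Pool.Agent.ORE

open Module Pool.Agent.GS

theorem ESN_ind {F V : Type} [Field F] [AddCommGroup V] [Module F V] (Q : QuadraticForm F V)
    (h2 : (2 : F) = 0) {a b : V} (h : pb Q a b ≠ 0) : LinearIndependent F ![a, b] := by
  rw [LinearIndependent.pair_iff]
  intro x y hxy
  have h1 : pb Q a (x • a + y • b) = 0 := by rw [hxy, map_zero]
  have h3 : pb Q (x • a + y • b) b = 0 := by rw [hxy, map_zero, LinearMap.zero_apply]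
  rw [map_add, map_smul, map_smul, pb_self2 h2, smul_zero, zero_add, smul_eq_mul] at h1
  rw [map_add, map_smul, map_smul, LinearMap.add_apply, LinearMap.smul_apply, LinearMap.smul_apply,
    pb_self2 h2 Q b, smul_zero, add_zero, smul_eq_mul] at h3
  exact ⟨(mul_eq_zero.mp h3).resolve_right h, (mul_eq_zero.mp h1).resolve_right h⟩

/-- vectors with `Q a, Q b ≠ 0`, `B(a, b) ≠ 0` have the same eigenvalue -/
theorem ESN_pair {F V : Type} [Field F] [Finite F] [AddCommGroup V] [Module F V]
    (Q : QuadraticForm F V) (h2 : (2 : F) = 0) (s : V →ₗ[F] V)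
    (hs : ∀ v, Q v ≠ 0 → ∃ c : F, s v = c • v) {a b : V} {l m : F} (ha : Q a ≠ 0) (hb : Q b ≠ 0)
    (hab : pb Q a b ≠ 0) (hl : s a = l • a) (hm : s b = m • b) : l = m := by
  have hchar : CharP F 2 := charP2 h2
  obtain ⟨t, ht⟩ : ∃ t : F, t ^ 2 = Q a / Q b := by
    obtain ⟨r, hr⟩ := FiniteField.isSquare_of_char_two ((CharP.ringChar_of_prime_eq_zero
      Nat.prime_two (by exact_mod_cast h2))) (Q a / Q b)
    exact ⟨r, by rw [hr, pow_two]⟩
  have ht0 : t ≠ 0 := by
    rintro rfl
    rw [zero_pow two_ne_zero] at ht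
    exact (div_ne_zero ha hb) ht.symm
  have hQ : Q (a + t • b) ≠ 0 := by
    rw [Q_add, Q_smul, ht, div_mul_cancel₀ _ hb, add2 h2, zero_add, map_smul, smul_eq_mul]
    exact mul_ne_zero ht0 hab
  obtain ⟨n, hn⟩ := hs _ hQ
  rw [map_add, map_smul, hl, hm] at hn
  have hlin := ESN_ind Q h2 hab
  rw [LinearIndependent.pair_iff] at hlin
  have h3 : (l - n) • a + (t * m - n * t) • b = 0 := by
    have h4 : (l - n) • a + (t * m - n * t) • b = (l • a + t • m • b) - n • (a + t • b) := by
      module
    rw [h4, hn, sub_self]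
  obtain ⟨h5, h6⟩ := hlin _ _ h3
  have h7 : t * (m - n) = 0 := by linear_combination h6
  have h8 : m - n = 0 := (mul_eq_zero.mp h7).resolve_left ht0
  rw [sub_eq_zero.mp h5, sub_eq_zero.mp h8]

theorem ESN (epq : EPQ_stmt) : ESN_stmt := by
  intro F V _ _ _ _ _ Q h2 hnd hdim s hs
  -- all nonsingular vectors have the same eigenvalue
  have key : ∀ (a b : V) (l m : F), Q a ≠ 0 → Q b ≠ 0 → s a = l • a → s b = m • b → l = m := by
    intro a b l m ha hb hl hm
    by_cases hab : pb Q a b = 0
    · by_cases hli : LinearIndependent F ![a, b]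
      · obtain ⟨c, hc1, hc2⟩ := (epq Q h2 hnd 2 ![a, b] hli ![1, 1] 1).1 (by omega)
        have hac : pb Q a c = 1 := hc1 0
        have hbc : pb Q b c = 1 := hc1 1
        have hc : Q c ≠ 0 := by rw [hc2]; exact one_ne_zero
        obtain ⟨n, hn⟩ := hs c hc
        have e1 := ESN_pair Q h2 s hs ha hc (by rw [hac]; exact one_ne_zero) hl hn
        have e2 := ESN_pair Q h2 s hs hb hc (by rw [hbc]; exact one_ne_zero) hm hn
        rw [e1, e2]
      · -- dependent
        have ha0 : a ≠ 0 := by rintro rfl; exact ha (Q_zero Q)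
        have hb0 : b ≠ 0 := by rintro rfl; exact hb (Q_zero Q)
        rw [LinearIndependent.pair_iff' ha0] at hli
        push Not at hli
        obtain ⟨t, ht⟩ := hli
        have ht0 : t ≠ 0 := by
          rintro rfl
          rw [zero_smul] at ht
          exact hb0 ht.symm
        rw [← ht, map_smul, hl, smul_smul, smul_smul] at hm
        have h3 : (t * l - m * t) • a = 0 := by rw [sub_smul, hm, sub_self]
        have h4 := (smul_eq_zero.mp h3).resolve_right ha0
        have h5 : t * (l - m) = 0 := by linear_combination h4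
        exact sub_eq_zero.mp ((mul_eq_zero.mp h5).resolve_left ht0)
    · exact ESN_pair Q h2 s hs ha hb hab hl hm
  -- a nonsingular vector
  obtain ⟨w, -, hw⟩ := (epq Q h2 hnd 0 ![] linearIndependent_empty_type ![] 1).1 (by omega)
  have hw0 : Q w ≠ 0 := by rw [hw]; exact one_ne_zero
  obtain ⟨c, hc⟩ := hs w hw0
  have hall : ∀ v, Q v ≠ 0 → s v = c • v := by
    intro v hv
    obtain ⟨d, hd⟩ := hs v hv
    rw [hd, key v w d c hv hw0 hd hc]
  refine ⟨c, ?_⟩
  intro x
  by_cases hx : Q x = 0
  · by_cases hx0 : x = 0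
    · rw [hx0, map_zero, smul_zero]
    · have hli : LinearIndependent F ![x] := by
        rw [linearIndependent_unique_iff]
        exact hx0
      obtain ⟨a, ha1, ha2⟩ := (epq Q h2 hnd 1 ![x] hli ![0] 1).1 (by omega)
      have hxa : pb Q x a = 0 := ha1 0
      have h3 : Q (x + a) ≠ 0 := by
        rw [Q_add, hx, ha2, hxa, zero_add, add_zero]
        exact one_ne_zero
      have h4 := hall _ h3
      have h5 := hall a (by rw [ha2]; exact one_ne_zero)
      rw [map_add, h5, smul_add] at h4
      exact add_right_cancel h4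
  · exact hall x hx

end Pool.Agent.ORE
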